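import Pool.Agent.QSN.StmtsB2

/-! Squad QSN, row ADT: the almost additive map. -/

set_option autoImplicit false

namespace Pool.Agent.QSN.H57

open Matrix Finset Pool.Agent.QSX Pool.Agent.QSN Filter Topology

/-- the logarithms of commuting matrices commute -/
theorem mlog_commute {R : Type} [CommRing R] [Algebra ℝ R] {m : ℕ}
    {g h : Matrix (Fin m) (Fin m) R} (hgh : g * h = h * g) : Commute (mlog g) (mlog h) := by
  have h0 : Commute (g - 1) (h - 1) := by
    have : Commute g h := hgh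
    exact (this.sub_left (Commute.one_left h)).sub_right
      ((Commute.one_right g).sub_left (Commute.one_right 1))
  unfold mlog
  refine Commute.sum_left _ _ _ fun k _ => ?_
  refine Commute.sum_right _ _ _ fun l _ => ?_
  exact ((h0.pow_pow k l).smul_left _).smul_right _

/-- membership in the box gives a bound for the coordinates -/
theorem bx_bound {D N : ℕ} {a : Fin D → ℕ} (ha : ∀ k, 2 * a k < N) {m : Fin D → ℤ}
    (hm : m ∈ Bx N a) (k : Fin D) : |m k| ≤ (N : ℤ) := by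
  unfold Bx at hm
  rw [Fintype.mem_piFinset] at hm
  have h1 := hm k
  rw [Finset.mem_Ico] at h1
  have h2 := ha k
  rw [abs_le]
  constructor <;> omega

section

variable {X Y : Dat} {hX : MS X} {H : Grd hX}

theorem md_zero (m m' : Fin H.D → ℤ) : H.md m m' 0 = m := by
  funext i
  simp [Grd.md]

theorem md_last (m m' : Fin H.D → ℤ) (k : ℕ) (hk : H.D ≤ k) : H.md m m' k = m' := by
  funext i
  have : (i : ℕ) < k := lt_of_lt_of_le i.2 hk
  simp [Grd.md, this]

/-- the relation of a good path -/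
def gg (A : AFQ X Y hX H) (s : ℕ) (m m' : Fin H.D → ℤ) : Prop :=
  ∀ i, H.wd i (A.M s) m m' ∈ A.Gd s

theorem gp_good (A : AFQ X Y hX H) (h0 : ∀ M, H.gp M 0 = 1) :
    ∀ᶠ s in (A.S.ω : Filter ℕ), ∀ m m', gg A s m m' →
      H.gp (A.M s) m ∈ A.Gd s ∧ H.gp (A.M s) m' ∈ A.Gd s := by
  rcases Nat.eq_zero_or_pos H.D with hD | hD
  · have h1 := A.gam 1 (Subgroup.one_mem _)
    filter_upwards [h1] with s hs m m' _
    have h2 : ∀ q : Fin H.D → ℤ, q = 0 := by
      intro q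
      funext i
      exact absurd i.2 (by omega)
    rw [h2 m, h2 m', h0]
    exact ⟨hs, hs⟩
  · refine Filter.Eventually.of_forall fun s m m' hg => ?_
    constructor
    · have h1 := hg (⟨0, hD⟩, 0)
      have h2 : H.wd (⟨0, hD⟩, 0) (A.M s) m m' = H.gp (A.M s) (H.md m m' 0) := rfl
      rw [h2, md_zero] at h1
      exact h1
    · have h1 := hg (⟨H.D - 1, by omega⟩, 4)
      have h2 : H.wd (⟨H.D - 1, by omega⟩, 4) (A.M s) m m' =
        H.gp (A.M s) (H.md m m' (H.D - 1 + 1)) := rfl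
      rw [h2, md_last m m' _ (by omega)] at h1
      exact h1

/-- points of the grid with bounded coordinates are bounded -/
theorem gp_bd (A : AFQ X Y hX H) (hw : ∀ k, H.w k ∈ X.n) (m : ℕ → Fin H.D → ℤ)
    (hm : ∀ s k, |m s k| ≤ ((HH H.D * A.M s : ℕ) : ℤ)) :
    A.Bd (fun s => H.gp (A.M s) (m s)) := by
  refine ⟨(HH H.D : ℝ) * ∑ i, ∑ j, ∑ k, |H.w k i j|, Filter.Eventually.of_forall fun s => ?_⟩
  refine ⟨∑ k, ((m s k : ℝ) / A.M s) • H.w k, ?_, rfl, ?_⟩
  · exact Submodule.sum_mem _ fun k _ => Submodule.smul_mem _ _ (hw k)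
  · intro i j
    have hM : (0 : ℝ) < A.M s := by
      obtain ⟨k, hk⟩ := A.pow s
      rw [hk]
      positivity
    have h1 : ∀ k, |(m s k : ℝ) / A.M s| ≤ (HH H.D : ℝ) := by
      intro k
      rw [abs_div, abs_of_pos hM, div_le_iff₀ hM]
      have h2 := hm s k
      have h3 : ((|m s k| : ℤ) : ℝ) ≤ (((HH H.D * A.M s : ℕ) : ℤ) : ℝ) := by exact_mod_cast h2
      rw [Int.cast_abs] at h3
      push_cast at h3
      exact h3
    rw [Matrix.sum_apply]
    calc |∑ k, (((m s k : ℝ) / A.M s) • H.w k) i j|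
        ≤ ∑ k, |(((m s k : ℝ) / A.M s) • H.w k) i j| := Finset.abs_sum_le_sum_abs _ _
      _ ≤ ∑ k, (HH H.D : ℝ) * |H.w k i j| := by
          refine Finset.sum_le_sum fun k _ => ?_
          rw [Matrix.smul_apply, smul_eq_mul, abs_mul]
          exact mul_le_mul_of_nonneg_right (h1 k) (abs_nonneg _)
      _ = (HH H.D : ℝ) * ∑ k, |H.w k i j| := by rw [Finset.mul_sum]
      _ ≤ (HH H.D : ℝ) * ∑ i, ∑ j, ∑ k, |H.w k i j| := by
          refine mul_le_mul_of_nonneg_left ?_ (Nat.cast_nonneg _)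
          refine le_trans ?_ (Finset.single_le_sum (f := fun i => ∑ j, ∑ k, |H.w k i j|)
            (fun i _ => Finset.sum_nonneg fun j _ => Finset.sum_nonneg fun k _ => abs_nonneg _)
            (Finset.mem_univ i))
          exact Finset.single_le_sum (f := fun j => ∑ k, |H.w k i j|)
            (fun j _ => Finset.sum_nonneg fun k _ => abs_nonneg _) (Finset.mem_univ j)

theorem gp_sh (M : ℕ) (hM : 0 < M) (k : Fin H.D) : H.gp M (sh M k) = ue (H.w k) := by
  have hM' : (M : ℝ) ≠ 0 := by exact_mod_cast hM.ne'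
  unfold Grd.gp Grd.u
  congr 1
  rw [Finset.sum_eq_single k]
  · have : (sh M k k : ℤ) = (M : ℤ) := by simp [sh]
    beta_reduce
    rw [this]
    rw [Int.cast_natCast, div_self hM', one_smul]
  · intro b _ hb
    have : (sh M k b : ℤ) = 0 := by
      unfold sh
      exact Pi.single_eq_of_ne hb _
    beta_reduce
    rw [this]
    simp
  · intro h
    exact absurd (Finset.mem_univ k) h

theorem sh_abs (M : ℕ) (k j : Fin H.D) : |sh M k j| ≤ (M : ℤ) := by
  unfold sh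
  by_cases h : j = k
  · subst h
    rw [Pi.single_eq_same]
    simp
  · rw [Pi.single_eq_of_ne h]
    simp

end

/-- what is needed of the majority choice at one stage -/
def Mp {D : ℕ} (M : ℕ) (a : Fin D → ℕ) (g : (Fin D → ℤ) → (Fin D → ℤ) → Prop)
    (n : (Fin D → ℤ) → (Fin D → ℤ)) : Prop :=
  (∀ z, n z ∈ Bx (HH D * M) a ∧
    ((∀ k, |z k| ≤ 2 * (M : ℤ)) → n z + z ∈ Bx (HH D * M) a)) ∧
  (∀ z z' : Fin D → ℤ, (∀ k, |z k| ≤ (M : ℤ)) → (∀ k, |z' k| ≤ (M : ℤ)) →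
    ∃ m, m ∈ Bx (HH D * M) a ∧
    m + z ∈ Bx (HH D * M) a ∧ m + (z + z') ∈ Bx (HH D * M) a ∧
    g (n z) m ∧ g (n z + z) (m + z) ∧ g (n z') (m + z) ∧ g (n z' + z') (m + (z + z')) ∧
    g (n (z + z')) m ∧ g (n (z + z') + (z + z')) (m + (z + z'))) ∧
  (∀ k, ∃ m, m ∈ Bx (HH D * M) a ∧ m + sh M k ∈ Bx (HH D * M) a ∧
    g (n (sh M k)) m ∧ g (n (sh M k) + sh M k) (m + sh M k) ∧
    g 0 m ∧ g (sh M k) (m + sh M k))

theorem adt (maj : MajStmt) (ptq : PtqStmt) (mdv : MdvStmt) (wds : WdsStmt) (cen : CenStmt)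
    (rlg : RlgStmt) (rdm : RdmStmt) (lgm : LgmStmt) (nfl : NflStmt) : AdtStmt := by
  intro X Y hX H A
  obtain ⟨w1, -⟩ := wds X hX H
  obtain ⟨c1, -⟩ := cen X hX H
  have hw : ∀ k, H.w k ∈ X.n := fun k => (c1 k).1
  obtain ⟨md1, md2, md3⟩ := mdv X Y hX H A
  have hMp : ∀ s, 0 < A.M s := by
    intro s
    obtain ⟨k, hk⟩ := A.pow s
    rw [hk]
    positivity
  -- the majority choice
  have hex : ∀ s, ∃ n : (Fin H.D → ℤ) → (Fin H.D → ℤ),
      (A.ε s ≤ 1 / 64 → Mp (A.M s) (A.a s) (gg A s) n) ∧ (¬ A.ε s ≤ 1 / 64 → ∀ z, n z = 0) := by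
    intro s
    by_cases hs : A.ε s ≤ 1 / 64
    · have hp : (({q : (Fin H.D → ℤ) × (Fin H.D → ℤ) | q.1 ∈ Bx (HH H.D * A.M s) (A.a s) ∧
          q.2 ∈ Bx (HH H.D * A.M s) (A.a s) ∧ ¬ gg A s q.1 q.2}.ncard : ℕ) : ℝ) ≤
          A.ε s * ((HH H.D * A.M s : ℕ) : ℝ) ^ (2 * H.D) := by
        have h1 := A.pair s
        have h2 : {q : (Fin H.D → ℤ) × (Fin H.D → ℤ) | q.1 ∈ Bx (HH H.D * A.M s) (A.a s) ∧
            q.2 ∈ Bx (HH H.D * A.M s) (A.a s) ∧ ¬ gg A s q.1 q.2} =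
            {q : (Fin H.D → ℤ) × (Fin H.D → ℤ) | q.1 ∈ Bx (HH H.D * A.M s) (A.a s) ∧
            q.2 ∈ Bx (HH H.D * A.M s) (A.a s) ∧ ∃ i, H.wd i (A.M s) q.1 q.2 ∉ A.Gd s} := by
          ext q
          simp only [Set.mem_ofPred_eq, gg, not_forall]
        rw [h2]
        exact h1
      have hst : (({m : Fin H.D → ℤ | m ∈ Bx (HH H.D * A.M s) (A.a s) ∧ (¬ gg A s 0 m ∨
          ∃ k, m + sh (A.M s) k ∈ Bx (HH H.D * A.M s) (A.a s) ∧
          ¬ gg A s (sh (A.M s) k) (m + sh (A.M s) k))}.ncard : ℕ) : ℝ) ≤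
          A.ε s * ((HH H.D * A.M s : ℕ) : ℝ) ^ H.D := by
        have h1 := A.star s
        have h2 : {m : Fin H.D → ℤ | m ∈ Bx (HH H.D * A.M s) (A.a s) ∧ (¬ gg A s 0 m ∨
            ∃ k, m + sh (A.M s) k ∈ Bx (HH H.D * A.M s) (A.a s) ∧
            ¬ gg A s (sh (A.M s) k) (m + sh (A.M s) k))} =
            {m : Fin H.D → ℤ | m ∈ Bx (HH H.D * A.M s) (A.a s) ∧
            ∃ i, (H.wd i (A.M s) 0 m ∉ A.Gd s ∨
            ∃ k, m + sh (A.M s) k ∈ Bx (HH H.D * A.M s) (A.a s) ∧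
            H.wd i (A.M s) (sh (A.M s) k) (m + sh (A.M s) k) ∉ A.Gd s)} := by
          ext m
          simp only [Set.mem_ofPred_eq, gg, not_forall]
          constructor
          · rintro ⟨hm, h⟩
            refine ⟨hm, ?_⟩
            rcases h with ⟨i, hi⟩ | ⟨k, hk, i, hi⟩
            · exact ⟨i, Or.inl hi⟩
            · exact ⟨i, Or.inr ⟨k, hk, hi⟩⟩
          · rintro ⟨hm, i, h⟩
            refine ⟨hm, ?_⟩
            rcases h with hi | ⟨k, hk, hi⟩
            · exact Or.inl ⟨i, hi⟩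
            · exact Or.inr ⟨k, hk, i, hi⟩
        rw [h2]
        exact h1
      obtain ⟨n, hn⟩ := maj H.D (A.M s) (A.a s) (A.ε s) (gg A s) (hMp s) (A.half s) hs hp hst
      exact ⟨n, fun _ => hn, fun h => absurd hs h⟩
    · exact ⟨fun _ => 0, fun h => absurd h hs, fun _ _ => rfl⟩
  choose n hn1 hn0 using hex
  have hE : ∀ᶠ s in (A.S.ω : Filter ℕ), A.ε s ≤ 1 / 64 :=
    A.ε0.eventually (Iic_mem_nhds (by norm_num : (0 : ℝ) < 1 / 64))
  have hMH : ∀ s, 2 * (A.M s : ℤ) ≤ ((HH H.D * A.M s : ℕ) : ℤ) := by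
    intro s
    have : 2 * A.M s ≤ HH H.D * A.M s := Nat.mul_le_mul_right _ (by unfold HH; omega)
    exact_mod_cast this
  have hM0 : ∀ s, (0 : ℤ) ≤ (A.M s : ℤ) := fun s => Int.natCast_nonneg _
  -- bounds for the base points
  have hnb : ∀ s (z : Fin H.D → ℤ), (∀ k, |z k| ≤ 2 * (A.M s : ℤ)) → ∀ k,
      |n s z k| ≤ ((HH H.D * A.M s : ℕ) : ℤ) ∧ |(n s z + z) k| ≤ ((HH H.D * A.M s : ℕ) : ℤ) := by
    intro s z hz k
    by_cases hs : A.ε s ≤ 1 / 64
    · obtain ⟨h1, h2⟩ := (hn1 s hs).1 z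
      exact ⟨bx_bound (A.half s) h1 k, bx_bound (A.half s) (h2 hz) k⟩
    · rw [hn0 s hs z]
      refine ⟨?_, ?_⟩
      · simp only [Pi.zero_apply, abs_zero]
        exact Int.natCast_nonneg _
      · rw [zero_add]
        exact (hz k).trans (hMH s)
  -- the key choice
  have key : ∀ z z' : ℕ → Fin H.D → ℤ, (∀ s k, |z s k| ≤ (A.M s : ℤ)) →
      (∀ s k, |z' s k| ≤ (A.M s : ℤ)) → ∃ m : ℕ → Fin H.D → ℤ,
      (∀ s k, |m s k| ≤ ((HH H.D * A.M s : ℕ) : ℤ) ∧
        |(m s + z s) k| ≤ ((HH H.D * A.M s : ℕ) : ℤ) ∧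
        |(m s + (z s + z' s)) k| ≤ ((HH H.D * A.M s : ℕ) : ℤ)) ∧
      ∀ᶠ s in (A.S.ω : Filter ℕ), gg A s (n s (z s)) (m s) ∧
        gg A s (n s (z s) + z s) (m s + z s) ∧
        gg A s (n s (z' s)) (m s + z s) ∧ gg A s (n s (z' s) + z' s) (m s + (z s + z' s)) ∧
        gg A s (n s (z s + z' s)) (m s) ∧
        gg A s (n s (z s + z' s) + (z s + z' s)) (m s + (z s + z' s)) := by
    intro z z' hz hz'
    have h1 : ∀ s, ∃ m : Fin H.D → ℤ, (∀ k, |m k| ≤ ((HH H.D * A.M s : ℕ) : ℤ) ∧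
        |(m + z s) k| ≤ ((HH H.D * A.M s : ℕ) : ℤ) ∧
        |(m + (z s + z' s)) k| ≤ ((HH H.D * A.M s : ℕ) : ℤ)) ∧
        (A.ε s ≤ 1 / 64 → gg A s (n s (z s)) m ∧
        gg A s (n s (z s) + z s) (m + z s) ∧
        gg A s (n s (z' s)) (m + z s) ∧ gg A s (n s (z' s) + z' s) (m + (z s + z' s)) ∧
        gg A s (n s (z s + z' s)) m ∧
        gg A s (n s (z s + z' s) + (z s + z' s)) (m + (z s + z' s))) := by
      intro s
      by_cases hs : A.ε s ≤ 1 / 64
      · obtain ⟨m, b1, b2, b3, g1, g2, g3, g4, g5, g6⟩ := (hn1 s hs).2.1 (z s) (z' s) (hz s) (hz' s)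
        exact ⟨m, fun k => ⟨bx_bound (A.half s) b1 k, bx_bound (A.half s) b2 k,
          bx_bound (A.half s) b3 k⟩, fun _ => ⟨g1, g2, g3, g4, g5, g6⟩⟩
      · refine ⟨0, fun k => ?_, fun h => absurd h hs⟩
        have a1 := hz s k
        have a2 := hz' s k
        have a3 := hMH s
        have a4 := hM0 s
        refine ⟨?_, ?_, ?_⟩
        · simp only [Pi.zero_apply, abs_zero]
          exact Int.natCast_nonneg _
        · rw [zero_add]
          omega
        · rw [zero_add, Pi.add_apply]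
          have := abs_add_le (z s k) (z' s k)
          omega
    choose m hm1 hm2 using h1
    exact ⟨m, hm1, hE.mono fun s hs => hm2 s hs⟩
  -- good and bounded grid points
  have hgp := gp_good A w1
  have GBf : ∀ m : ℕ → Fin H.D → ℤ, (∀ s k, |m s k| ≤ ((HH H.D * A.M s : ℕ) : ℤ)) →
      (∀ᶠ s in (A.S.ω : Filter ℕ), ∃ m', gg A s (m s) m') →
      A.GB (fun s => H.gp (A.M s) (m s)) := by
    intro m hm hg
    refine ⟨?_, gp_bd A hw m hm⟩
    filter_upwards [hg, hgp] with s h1 h2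
    obtain ⟨m', hm'⟩ := h1
    exact (h2 _ _ hm').1
  have GBl : ∀ m : ℕ → Fin H.D → ℤ, (∀ s k, |m s k| ≤ ((HH H.D * A.M s : ℕ) : ℤ)) →
      (∀ᶠ s in (A.S.ω : Filter ℕ), ∃ m', gg A s m' (m s)) →
      A.GB (fun s => H.gp (A.M s) (m s)) := by
    intro m hm hg
    refine ⟨?_, gp_bd A hw m hm⟩
    filter_upwards [hg, hgp] with s h1 h2
    obtain ⟨m', hm'⟩ := h1
    exact (h2 _ _ hm').2
  -- the base points are good and bounded
  have hb2 : ∀ z : ℕ → Fin H.D → ℤ, (∀ s k, |z s k| ≤ (A.M s : ℤ)) →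
      ∀ s k, |z s k| ≤ 2 * (A.M s : ℤ) := by
    intro z hz s k
    have := hz s k
    have := hM0 s
    omega
  have hadd2 : ∀ z z' : ℕ → Fin H.D → ℤ, (∀ s k, |z s k| ≤ (A.M s : ℤ)) →
      (∀ s k, |z' s k| ≤ (A.M s : ℤ)) → ∀ s k, |(z s + z' s) k| ≤ 2 * (A.M s : ℤ) := by
    intro z z' hz hz' s k
    rw [Pi.add_apply]
    have h1 := hz s k
    have h2 := hz' s k
    have := abs_add_le (z s k) (z' s k)
    omega
  have GB2 : ∀ z z' : ℕ → Fin H.D → ℤ, (∀ s k, |z s k| ≤ (A.M s : ℤ)) →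
      (∀ s k, |z' s k| ≤ (A.M s : ℤ)) →
      A.GB (fun s => H.gp (A.M s) (n s (z s + z' s))) ∧
      A.GB (fun s => H.gp (A.M s) (n s (z s + z' s) + (z s + z' s))) := by
    intro z z' hz hz'
    obtain ⟨m, hm, hg⟩ := key z z' hz hz'
    constructor
    · refine GBf (fun s => n s (z s + z' s)) (fun s k => (hnb s _ (hadd2 z z' hz hz' s) k).1) ?_
      filter_upwards [hg] with s hs
      exact ⟨_, hs.2.2.2.2.1⟩
    · refine GBf (fun s => n s (z s + z' s) + (z s + z' s))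
        (fun s k => (hnb s _ (hadd2 z z' hz hz' s) k).2) ?_
      filter_upwards [hg] with s hs
      exact ⟨_, hs.2.2.2.2.2⟩
  have GB1 : ∀ z : ℕ → Fin H.D → ℤ, (∀ s k, |z s k| ≤ (A.M s : ℤ)) →
      A.GB (fun s => H.gp (A.M s) (n s (z s))) ∧
      A.GB (fun s => H.gp (A.M s) (n s (z s) + z s)) := by
    intro z hz
    obtain ⟨m, hm, hg⟩ := key z z hz hz
    constructor
    · refine GBf (fun s => n s (z s)) (fun s k => (hnb s _ (hb2 z hz s) k).1) ?_
      filter_upwards [hg] with s hs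
      exact ⟨_, hs.1⟩
    · refine GBf (fun s => n s (z s) + z s) (fun s k => (hnb s _ (hb2 z hz s) k).2) ?_
      filter_upwards [hg] with s hs
      exact ⟨_, hs.2.1⟩
  -- the map
  let T : ℕ → (Fin H.D → ℤ) → Matrix (Fin Y.m) (Fin Y.m) ℝ := fun s z =>
    mlog (((A.χ s (H.gp (A.M s) (n s z)))⁻¹ *
      A.χ s (H.gp (A.M s) (n s z + z)) : UX Y) : Matrix (Fin Y.m) (Fin Y.m) ℝ)
  let W : (ℕ → Fin H.D → ℤ) → Matrix (Fin Y.m) (Fin Y.m) A.S.FF := fun z =>
    A.V (fun s => H.gp (A.M s) (n s (z s))) (fun s => H.gp (A.M s) (n s (z s) + z s))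
  have hT : ∀ z : ℕ → Fin H.D → ℤ, A.GB (fun s => H.gp (A.M s) (n s (z s))) →
      A.GB (fun s => H.gp (A.M s) (n s (z s) + z s)) →
      A.S.MdM (fun s => T s (z s)) ∧ A.S.redM (fun s => T s (z s)) = mlog (W z) := by
    intro z h1 h2
    have h3 := (md1 _ _ h1 h2).1
    exact (rlg A.S Y.m _ h3).2
  have hW : ∀ z z' : ℕ → Fin H.D → ℤ, (∀ s k, |z s k| ≤ (A.M s : ℤ)) →
      (∀ s k, |z' s k| ≤ (A.M s : ℤ)) → W (fun s => z s + z' s) = W z * W z' := by
    intro z z' hz hz'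
    obtain ⟨m, hm, hg⟩ := key z z' hz hz'
    have e1 : W z = A.V (fun s => H.gp (A.M s) (m s)) (fun s => H.gp (A.M s) (m s + z s)) := by
      refine ptq X Y hX H A (fun s => n s (z s)) m z (fun s k => ?_) ?_
      · exact ⟨(hnb s _ (hb2 z hz s) k).1, (hm s k).1, (hnb s _ (hb2 z hz s) k).2, (hm s k).2.1⟩
      · filter_upwards [hg] with s hs i
        exact ⟨hs.1 i, hs.2.1 i⟩
    have e2 : W z' = A.V (fun s => H.gp (A.M s) (m s + z s))
        (fun s => H.gp (A.M s) (m s + z s + z' s)) := by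
      refine ptq X Y hX H A (fun s => n s (z' s)) (fun s => m s + z s) z' (fun s k => ?_) ?_
      · refine ⟨(hnb s _ (hb2 z' hz' s) k).1, (hm s k).2.1, (hnb s _ (hb2 z' hz' s) k).2, ?_⟩
        have := (hm s k).2.2
        rw [← add_assoc] at this
        exact this
      · filter_upwards [hg] with s hs i
        refine ⟨hs.2.2.1 i, ?_⟩
        have := hs.2.2.2.1 i
        rw [← add_assoc] at this
        exact this
    have e3 : W (fun s => z s + z' s) = A.V (fun s => H.gp (A.M s) (m s))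
        (fun s => H.gp (A.M s) (m s + (z s + z' s))) := by
      refine ptq X Y hX H A (fun s => n s (z s + z' s)) m (fun s => z s + z' s)
        (fun s k => ?_) ?_
      · exact ⟨(hnb s _ (hadd2 z z' hz hz' s) k).1, (hm s k).1,
          (hnb s _ (hadd2 z z' hz hz' s) k).2, (hm s k).2.2⟩
      · filter_upwards [hg] with s hs i
        exact ⟨hs.2.2.2.2.1 i, hs.2.2.2.2.2 i⟩
    have gb1 : A.GB (fun s => H.gp (A.M s) (m s)) := by
      refine GBl m (fun s k => (hm s k).1) ?_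
      filter_upwards [hg] with s hs
      exact ⟨_, hs.1⟩
    have gb2 : A.GB (fun s => H.gp (A.M s) (m s + z s)) := by
      refine GBl (fun s => m s + z s) (fun s k => (hm s k).2.1) ?_
      filter_upwards [hg] with s hs
      exact ⟨_, hs.2.1⟩
    have gb3 : A.GB (fun s => H.gp (A.M s) (m s + (z s + z' s))) := by
      refine GBl (fun s => m s + (z s + z' s)) (fun s k => (hm s k).2.2) ?_
      filter_upwards [hg] with s hs
      exact ⟨_, hs.2.2.2.1⟩
    have e4 := md2 _ _ _ gb1 gb2 gb3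
    have e5 : (fun s => H.gp (A.M s) (m s + z s + z' s)) =
        (fun s => H.gp (A.M s) (m s + (z s + z' s))) := by
      funext s
      rw [add_assoc]
    rw [e3, e4, e1, e2, e5]
  have hlog : ∀ z z' : ℕ → Fin H.D → ℤ, (∀ s k, |z s k| ≤ (A.M s : ℤ)) →
      (∀ s k, |z' s k| ≤ (A.M s : ℤ)) →
      mlog (W (fun s => z s + z' s)) = mlog (W z) + mlog (W z') := by
    intro z z' hz hz'
    have h1 := hW z z' hz hz'
    have h2 := hW z' z hz' hz
    have h3 : (fun s => z' s + z s) = (fun s => z s + z' s) := by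
      funext s
      rw [add_comm]
    rw [h3, h1] at h2
    obtain ⟨y, hy, hy'⟩ := (md1 _ _ (GB1 z hz).1 (GB1 z hz).2).2
    obtain ⟨y', hyy, hyy'⟩ := (md1 _ _ (GB1 z' hz').1 (GB1 z' hz').2).2
    have hy1 : W z = mexp y := hy'
    have hy2 : W z' = mexp y' := hyy'
    obtain ⟨nf1, -⟩ := nfl Y A.S.FF
    have su1 : SU y := nf1 y hy
    have su2 : SU y' := nf1 y' hyy
    have l1 : mlog (W z) = y := by rw [hy1]; exact ((lgm A.S.FF Y.m).1 y su1).2
    have l2 : mlog (W z') = y' := by rw [hy2]; exact ((lgm A.S.FF Y.m).1 y' su2).2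
    have hc : Commute y y' := by
      have := mlog_commute h2
      rwa [l1, l2] at this
    rw [h1, l1, l2, hy1, hy2, ← mexp_add su1 su2 hc]
    exact ((lgm A.S.FF Y.m).1 _ (su1.add su2)).2
  refine ⟨⟨T, n, fun s z => rfl, GB1, fun z hz => (hT z (GB1 z hz).1 (GB1 z hz).2).1, ?_, ?_⟩⟩
  · intro z z' hz hz' i j
    obtain ⟨r1, r2, -, r4, r5⟩ := rdm A.S Y.m
    obtain ⟨t1, t2⟩ := hT z (GB1 z hz).1 (GB1 z hz).2
    obtain ⟨t1', t2'⟩ := hT z' (GB1 z' hz').1 (GB1 z' hz').2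
    obtain ⟨t3, t4⟩ := hT (fun s => z s + z' s) (GB2 z z' hz hz').1 (GB2 z z' hz hz').2
    obtain ⟨s1, s2⟩ := r4 (-1) _ t1
    obtain ⟨s1', s2'⟩ := r4 (-1) _ t1'
    obtain ⟨u1, u2⟩ := r2 _ _ t3 s1
    obtain ⟨v1, v2⟩ := r2 _ _ u1 s1'
    have h1 : A.S.redM (fun s => T s (z s + z' s) + (-1 : ℝ) • T s (z s) +
        (-1 : ℝ) • T s (z' s)) i j = 0 := by
      have h2 : A.S.redM (fun s => T s (z s + z' s) + (-1 : ℝ) • T s (z s) +
        (-1 : ℝ) • T s (z' s)) = 0 := by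
        rw [v2, u2, s2, s2', t4, t2, t2', hlog z z' hz hz']
        simp only [neg_smul, one_smul]
        abel
      rw [h2]
      rfl
    have h3 := (r5 _ v1 i j).1 h1
    have h4 : (fun s => T s (z s + z' s) i j - T s (z s) i j - T s (z' s) i j) =
        (fun s => (T s (z s + z' s) + (-1 : ℝ) • T s (z s) + (-1 : ℝ) • T s (z' s)) i j) := by
      funext s
      simp only [Matrix.add_apply, Matrix.smul_apply, smul_eq_mul]
      ring
    rw [h4]
    exact h3
  · intro k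
    have hz : ∀ s j, |sh (A.M s) k j| ≤ (A.M s : ℤ) := fun s j => sh_abs (A.M s) k j
    have h1 := (hT (fun s => sh (A.M s) k) (GB1 _ hz).1 (GB1 _ hz).2).2
    have hk : ∃ m : ℕ → Fin H.D → ℤ,
        (∀ s j, |m s j| ≤ ((HH H.D * A.M s : ℕ) : ℤ) ∧
          |(m s + sh (A.M s) k) j| ≤ ((HH H.D * A.M s : ℕ) : ℤ)) ∧
        ∀ᶠ s in (A.S.ω : Filter ℕ), gg A s (n s (sh (A.M s) k)) (m s) ∧
          gg A s (n s (sh (A.M s) k) + sh (A.M s) k) (m s + sh (A.M s) k) ∧
          gg A s 0 (m s) ∧ gg A s (sh (A.M s) k) (m s + sh (A.M s) k) := by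
      have h1 : ∀ s, ∃ m : Fin H.D → ℤ, (∀ j, |m j| ≤ ((HH H.D * A.M s : ℕ) : ℤ) ∧
          |(m + sh (A.M s) k) j| ≤ ((HH H.D * A.M s : ℕ) : ℤ)) ∧
          (A.ε s ≤ 1 / 64 → gg A s (n s (sh (A.M s) k)) m ∧
          gg A s (n s (sh (A.M s) k) + sh (A.M s) k) (m + sh (A.M s) k) ∧
          gg A s 0 m ∧ gg A s (sh (A.M s) k) (m + sh (A.M s) k)) := by
        intro s
        by_cases hs : A.ε s ≤ 1 / 64
        · obtain ⟨m, b1, b2, g1, g2, g3, g4⟩ := (hn1 s hs).2.2 k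
          exact ⟨m, fun j => ⟨bx_bound (A.half s) b1 j, bx_bound (A.half s) b2 j⟩,
            fun _ => ⟨g1, g2, g3, g4⟩⟩
        · refine ⟨0, fun j => ?_, fun h => absurd h hs⟩
          have a1 := hz s j
          have a3 := hMH s
          have a4 := hM0 s
          refine ⟨?_, ?_⟩
          · simp only [Pi.zero_apply, abs_zero]
            exact Int.natCast_nonneg _
          · rw [zero_add]
            omega
      choose m hm1 hm2 using h1
      exact ⟨m, hm1, hE.mono fun s hs => hm2 s hs⟩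
    obtain ⟨m, hm, hg⟩ := hk
    have e1 : W (fun s => sh (A.M s) k) = A.V (fun s => H.gp (A.M s) (m s))
        (fun s => H.gp (A.M s) (m s + sh (A.M s) k)) := by
      refine ptq X Y hX H A (fun s => n s (sh (A.M s) k)) m (fun s => sh (A.M s) k)
        (fun s j => ?_) ?_
      · exact ⟨(hnb s _ (hb2 _ hz s) j).1, (hm s j).1, (hnb s _ (hb2 _ hz s) j).2, (hm s j).2⟩
      · filter_upwards [hg] with s hs i
        exact ⟨hs.1 i, hs.2.1 i⟩
    have e2 : A.V (fun s => H.gp (A.M s) ((fun _ => 0 : ℕ → Fin H.D → ℤ) s))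
        (fun s => H.gp (A.M s) ((fun _ => 0 : ℕ → Fin H.D → ℤ) s + sh (A.M s) k)) =
        A.V (fun s => H.gp (A.M s) (m s))
        (fun s => H.gp (A.M s) (m s + sh (A.M s) k)) := by
      refine ptq X Y hX H A (fun _ => 0) m (fun s => sh (A.M s) k) (fun s j => ?_) ?_
      · refine ⟨?_, (hm s j).1, ?_, (hm s j).2⟩
        · simp only [Pi.zero_apply, abs_zero]
          exact Int.natCast_nonneg _
        · rw [zero_add]
          have a1 := hz s j
          have a3 := hMH s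
          have a4 := hM0 s
          omega
      · filter_upwards [hg] with s hs i
        refine ⟨hs.2.2.1 i, ?_⟩
        rw [zero_add]
        exact hs.2.2.2 i
    have e3 : (fun s => H.gp (A.M s) ((fun _ => 0 : ℕ → Fin H.D → ℤ) s)) =
        (fun _ => 1) := by
      funext s
      exact w1 _
    have e4 : (fun s => H.gp (A.M s) ((fun _ => 0 : ℕ → Fin H.D → ℤ) s + sh (A.M s) k)) =
        (fun _ => ue (H.w k)) := by
      funext s
      rw [zero_add]
      exact gp_sh (A.M s) (hMp s) k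
    rw [e3, e4] at e2
    rw [e2, ← e1]
    exact h1

end Pool.Agent.QSN.H57
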